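import Pool.Agent.Run7.h384.PAT.Subst
import Pool.Agent.Run7.h384.UNI.Main

/-!
# Patterns which are unavoidable at a polynomial distance from the top exponential
-/

set_option autoImplicit false

namespace Pool.Agent.Run7.h384.PAT

open Finset Pool.Agent.TH138.NF Pool.Agent.Y424.LK Pool.Agent.Run7.h384.UNI

theorem pattern_of_EH {s k n D N Y : ℕ} {G : ℕ → ℕ → Bool} (hEH : EH k G D) (hn : 1 ≤ n)
    (hY : n ^ D + s ≤ 2 ^ Y) (hN : twr (s + 1) (2 * Y + (s + 2) ^ 2) ≤ N) (c : Finset ℕ → Bool)
    (hc : ∀ H ⊆ range N, H.card = n → ¬ Homogeneous (s + 2) c H) :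
    HasPattern s N c (k + s) G := by
  classical
  have hκ : Fintype.card Bool ≤ 2 ^ 1 := by simp
  obtain ⟨U, hU, S, hS, hUc, hSc, hlt, hL⟩ := linkQ Bool (2 ^ Y) s (range N)
    (by
      rw [card_range]
      refine (NQ_le _ 1 le_rfl hκ Y s).trans (le_trans (le_of_eq ?_) hN)
      congr 1
      ring) c
  set d : ℕ → ℕ → Bool := fun x y => c (insert x (insert y S)) with hd
  set e := U.orderEmbOfFin hUc with he
  set M := 2 ^ Y - s with hM
  have hM1 : n ^ D ≤ M := by omega
  have hMY : M + s = 2 ^ Y := by omega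
  set U' := univ.image (fun i : Fin M => e ⟨i, by omega⟩) with hU'
  have hU'U : U' ⊆ U := by
    intro x hx
    obtain ⟨i, -, rfl⟩ := mem_image.1 hx
    exact orderEmbOfFin_mem _ _ _
  have hU'c : U'.card = M := by
    rw [hU', card_image_of_injective, card_univ, Fintype.card_fin]
    intro i j hij
    have := e.injective hij
    rw [Fin.mk.injEq] at this
    exact Fin.ext this
  have hcopy : Copy d U' k G := by
    by_contra hno
    obtain ⟨b, H, hH, hHm, hHc⟩ := hEH d U' n hn (hU'c ▸ hM1) hno
    obtain ⟨H', hH', hc'⟩ := exists_subset_card_eq hHc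
    have hHU : H' ⊆ U := hH'.trans (hH.trans hU'U)
    refine hc H' (hHU.trans hU) hc' ?_
    have h1 := homQ hL hHU b (fun x hx y hy hxy => hHm x (hH' hx) y (hH' hy) hxy)
    intro A hA B hB hAc hBc
    rw [h1 A hA hAc, h1 B hB hBc]
  obtain ⟨φ, h1, h2⟩ := hcopy
  set ψ : ℕ → ℕ := fun i => if i < k then φ i else
    if h : M + (i - k) < 2 ^ Y then e ⟨M + (i - k), h⟩ else 0 with hψ
  have hψ1 : ∀ i < k, ψ i = φ i := fun i hi => if_pos hi
  have hψ2 : ∀ i, k ≤ i → i < k + s → ∃ h : M + (i - k) < 2 ^ Y, ψ i = e ⟨M + (i - k), h⟩ := by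
    intro i hi hi'
    have h : M + (i - k) < 2 ^ Y := by omega
    refine ⟨h, ?_⟩
    simp only [hψ, Nat.not_lt.2 hi, if_false, h, dif_pos]
  have hψU : ∀ i < k + s, ψ i ∈ U := by
    intro i hi
    rcases Nat.lt_or_ge i k with h | h
    · rw [hψ1 i h]
      exact hU'U (h1 i h)
    · obtain ⟨h3, h4⟩ := hψ2 i h hi
      rw [h4]
      exact orderEmbOfFin_mem _ _ _
  have hmono : ∀ j < k + s, ∀ i < j, ψ i < ψ j := by
    intro j hj i hij
    rcases Nat.lt_or_ge j k with hjk | hjk
    · rw [hψ1 j hjk, hψ1 i (by omega)]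
      exact (h2 j hjk i hij).1
    · obtain ⟨h3, h4⟩ := hψ2 j hjk hj
      rw [h4]
      rcases Nat.lt_or_ge i k with hik | hik
      · rw [hψ1 i hik]
        obtain ⟨t, -, ht⟩ := mem_image.1 (h1 i hik)
        rw [← ht]
        apply e.strictMono
        rw [Fin.mk_lt_mk]
        have := t.2
        omega
      · obtain ⟨h5, h6⟩ := hψ2 i hik (by omega)
        rw [h6]
        apply e.strictMono
        rw [Fin.mk_lt_mk]
        omega
  refine ⟨ψ, hmono, fun i hi => mem_range.1 (hU (hψU i hi)), ?_⟩
  intro A hA hAc i hi j hj hij hz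
  have hinj : Set.InjOn ψ (A : Set ℕ) := by
    intro x hx y hy hxy
    have hx' : x < k + s := mem_range.1 (hA hx)
    have hy' : y < k + s := mem_range.1 (hA hy)
    rcases lt_trichotomy x y with h | h | h
    · exact absurd hxy (hmono y hy' x h).ne
    · exact h
    · exact absurd hxy (hmono x hx' y h).ne'
  have hjk : j < k + s := mem_range.1 (hA hj)
  have hAU : A.image ψ ⊆ U := by
    intro x hx
    obtain ⟨t, ht, rfl⟩ := mem_image.1 hx
    exact hψU t (mem_range.1 (hA ht))
  -- the second element is smaller than `k`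
  have hjk' : j < k := by
    by_contra hcon
    push Not at hcon
    have h3 : A ⊆ insert i (Ico j (k + s)) := by
      intro z hzA
      rw [mem_insert, mem_Ico]
      rcases hz z hzA with h | h
      · exact Or.inl h
      · exact Or.inr ⟨h, mem_range.1 (hA hzA)⟩
    have h4 := card_le_card h3
    have h5 := card_insert_le i (Ico j (k + s))
    rw [Nat.card_Ico] at h5
    omega
  rw [hL (A.image ψ) hAU (by rw [card_image_of_injOn hinj, hAc]) (ψ i) (mem_image_of_mem _ hi)
    (ψ j) (mem_image_of_mem _ hj) (hmono j hjk i hij)]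
  · rw [hψ1 i (by omega), hψ1 j hjk']
    exact (h2 j hjk' i hij).2
  · intro x hx
    obtain ⟨t, ht, rfl⟩ := mem_image.1 hx
    rcases hz t ht with h | h
    · exact Or.inl (by rw [h])
    · right
      rcases h.eq_or_lt with e | e
      · rw [e]
      · exact (hmono t (mem_range.1 (hA ht)) j e).le

theorem twr_succ' (k x : ℕ) : twr (k + 1) x = twr k (2 ^ x) := by
  induction k with
  | zero => rfl
  | succ k ih =>
    show 2 ^ twr (k + 1) x = 2 ^ twr k (2 ^ x)
    rw [ih]

theorem pattern_poly {s k n D N : ℕ} {G : ℕ → ℕ → Bool} (hEH : EH k G D) (hn : 1 ≤ n)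
    (hN : twr s (2 ^ (2 * (s + 3) ^ 2) * n ^ (2 * D)) ≤ N) (c : Finset ℕ → Bool)
    (hc : ∀ H ⊆ range N, H.card = n → ¬ Homogeneous (s + 2) c H) :
    HasPattern s N c (k + s) G := by
  obtain ⟨Y, hY1, hY2⟩ : ∃ Y : ℕ, n ^ D + s ≤ 2 ^ Y ∧ 2 ^ Y ≤ 2 * (n ^ D + s) := by
    have hpos : 1 ≤ n ^ D := Nat.one_le_pow _ _ hn
    refine ⟨Nat.clog 2 (n ^ D + s), Nat.le_pow_clog (by norm_num) _, ?_⟩
    rcases Nat.lt_or_ge (n ^ D + s) 2 with h | h
    · have : n ^ D + s = 1 := by omega
      rw [this]
      simp
    · have h1 := Nat.pow_pred_clog_lt_self (b := 2) (by norm_num) (x := n ^ D + s) (by omega)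
      have h2 : 0 < Nat.clog 2 (n ^ D + s) := Nat.clog_pos (by norm_num) h
      obtain ⟨t, ht⟩ : ∃ t, Nat.clog 2 (n ^ D + s) = t + 1 := ⟨_, (Nat.succ_pred_eq_of_pos h2).symm⟩
      rw [ht] at h1 ⊢
      rw [Nat.pred_succ] at h1
      rw [pow_succ]
      omega
  refine pattern_of_EH hEH hn hY1 (le_trans ?_ hN) c hc
  rw [twr_succ']
  apply twr_mono
  have hpos : 1 ≤ n ^ D := Nat.one_le_pow _ _ hn
  have h1 : 2 ^ Y ≤ 2 ^ (s + 1) * n ^ D := by
    refine hY2.trans ?_
    have h2 : n ^ D + s ≤ 2 ^ s * n ^ D := by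
      have h3 : s + 1 ≤ 2 ^ s := Nat.lt_two_pow_self
      calc n ^ D + s ≤ n ^ D + s * n ^ D := by
            apply Nat.add_le_add_left
            exact Nat.le_mul_of_pos_right _ hpos
        _ = (s + 1) * n ^ D := by ring
        _ ≤ _ := Nat.mul_le_mul_right _ h3
    calc 2 * (n ^ D + s) ≤ 2 * (2 ^ s * n ^ D) := Nat.mul_le_mul_left _ h2
      _ = _ := by ring
  calc 2 ^ (2 * Y + (s + 2) ^ 2) = (2 ^ Y) ^ 2 * 2 ^ ((s + 2) ^ 2) := by
        rw [pow_add, mul_comm 2 Y, pow_mul]
    _ ≤ (2 ^ (s + 1) * n ^ D) ^ 2 * 2 ^ ((s + 2) ^ 2) :=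
        Nat.mul_le_mul_right _ (Nat.pow_le_pow_left h1 2)
    _ = 2 ^ (2 * (s + 1) + (s + 2) ^ 2) * n ^ (2 * D) := by
        rw [mul_pow, ← pow_mul, ← pow_mul, pow_add, mul_comm D 2, mul_comm (s + 1) 2]
        ring
    _ ≤ 2 ^ (2 * (s + 3) ^ 2) * n ^ (2 * D) := by
        apply Nat.mul_le_mul_right
        apply Nat.pow_le_pow_right (by norm_num)
        nlinarith

/-- The closure of the patterns on at most three vertices under substitution. -/
inductive Cl : ℕ → (ℕ → ℕ → Bool) → Prop
  | small {k : ℕ} {G : ℕ → ℕ → Bool} (hk : k ≤ 3) : Cl k G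
  | sub {k₁ k₂ v : ℕ} {G₁ G₂ : ℕ → ℕ → Bool} (h₁ : Cl k₁ G₁) (h₂ : Cl k₂ G₂) (hv : v < k₁)
      (hk₂ : 1 ≤ k₂) : Cl (k₁ + k₂ - 1) (subst G₁ G₂ v k₂)

theorem Cl.eh {k : ℕ} {G : ℕ → ℕ → Bool} (h : Cl k G) : ∃ D, EH k G D := by
  induction h with
  | small hk => exact ⟨2, eh_small hk _⟩
  | sub _ _ hv hk₂ ih₁ ih₂ =>
    obtain ⟨D₁, h₁⟩ := ih₁
    obtain ⟨D₂, h₂⟩ := ih₂
    exact ⟨_, eh_subst h₁ h₂ hv hk₂⟩

/-- The number of the `r`-subsets of `B` of the colour `true`. -/
def edges (r : ℕ) (c : Finset ℕ → Bool) (B : Finset ℕ) : ℕ :=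
  ((powersetCard r B).filter (fun A => c A = true)).card

theorem edges_pattern {s N : ℕ} {c : Finset ℕ → Bool} {G : ℕ → ℕ → Bool}
    (h : HasPattern s N c (3 + s) G) :
    ∃ B ⊆ range N, B.card = s + 3 ∧
      edges (s + 2) c B = (s + 1) * (G 0 1).toNat + (G 0 2).toNat + (G 1 2).toNat := by
  classical
  obtain ⟨φ, h1, h2, h3⟩ := h
  have hinj : Set.InjOn φ (range (3 + s) : Set ℕ) := by
    intro x hx y hy hxy
    rw [mem_coe, mem_range] at hx hy
    rcases lt_trichotomy x y with h | h | h
    · exact absurd hxy (h1 y hy x h).ne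
    · exact h
    · exact absurd hxy (h1 x hx y h).ne'
  refine ⟨(range (3 + s)).image φ, ?_, ?_, ?_⟩
  · intro x hx
    obtain ⟨i, hi, rfl⟩ := mem_image.1 hx
    exact mem_range.2 (h2 i (mem_range.1 hi))
  · rw [card_image_of_injOn hinj, card_range, add_comm]
  · -- the subsets are obtained by removing one vertex
    have hcol : ∀ i < 3 + s, c (((range (3 + s)).erase i).image φ) =
        if i = 0 then G 1 2 else if i = 1 then G 0 2 else G 0 1 := by
      intro i hi
      have hcard : ((range (3 + s)).erase i).card = s + 2 := by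
        rw [card_erase_of_mem (mem_range.2 hi), card_range]
        omega
      by_cases h0 : i = 0
      · subst h0
        simp only [if_true]
        apply h3 _ (erase_subset _ _) hcard
        · rw [mem_erase, mem_range]; omega
        · rw [mem_erase, mem_range]; omega
        · omega
        · intro z hz
          rw [mem_erase] at hz
          omega
      · by_cases h1' : i = 1
        · subst h1'
          simp only [if_true, if_neg h0]
          apply h3 _ (erase_subset _ _) hcard
          · rw [mem_erase, mem_range]; omega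
          · rw [mem_erase, mem_range]; omega
          · omega
          · intro z hz
            rw [mem_erase] at hz
            omega
        · simp only [h0, h1', if_false]
          apply h3 _ (erase_subset _ _) hcard
          · rw [mem_erase, mem_range]; omega
          · rw [mem_erase, mem_range]; omega
          · omega
          · intro z hz
            omega
    have hset : ((powersetCard (s + 2) ((range (3 + s)).image φ)).filter (fun A => c A = true)) =
        ((range (3 + s)).filter (fun i => (if i = 0 then G 1 2 else if i = 1 then G 0 2 else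
          G 0 1) = true)).image (fun i => ((range (3 + s)).erase i).image φ) := by
      ext A
      rw [mem_filter, mem_powersetCard, mem_image]
      constructor
      · rintro ⟨⟨hA1, hA2⟩, hA3⟩
        obtain ⟨A', hA', rfl⟩ := subset_image_iff.1 hA1
        have hA'r : A' ⊆ range (3 + s) := by exact_mod_cast hA'
        have hc' : A'.card = s + 2 := by
          rw [card_image_of_injOn (hinj.mono (by exact_mod_cast hA'r))] at hA2
          exact hA2
        have hd : ((range (3 + s)) \ A').card = 1 := by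
          rw [card_sdiff_of_subset hA'r, card_range, hc']
          omega
        obtain ⟨i, hi⟩ := card_eq_one.1 hd
        have hi' : i ∈ range (3 + s) := by
          have : i ∈ (range (3 + s)) \ A' := by rw [hi]; exact mem_singleton_self _
          exact (mem_sdiff.1 this).1
        have hA'e : A' = (range (3 + s)).erase i := by
          rw [← sdiff_singleton_eq_erase, ← hi]
          exact (Finset.sdiff_sdiff_eq_self hA'r).symm
        refine ⟨i, ?_, by rw [hA'e]⟩
        rw [mem_filter]
        refine ⟨hi', ?_⟩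
        rw [← hcol i (mem_range.1 hi'), ← hA'e]
        exact hA3
      · rintro ⟨i, hi, rfl⟩
        rw [mem_filter] at hi
        refine ⟨⟨image_subset_image (erase_subset _ _), ?_⟩, ?_⟩
        · rw [card_image_of_injOn (hinj.mono (by exact_mod_cast erase_subset _ _)),
            card_erase_of_mem hi.1, card_range]
          omega
        · rw [hcol i (mem_range.1 hi.1)]
          exact hi.2
    unfold edges
    rw [hset, card_image_of_injOn]
    · -- count
      have hr : range (3 + s) = insert 0 (insert 1 (Ico 2 (3 + s))) := by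
        ext x
        simp only [mem_range, mem_insert, mem_Ico]
        omega
      rw [hr, filter_insert, filter_insert]
      have e1 : (Ico 2 (3 + s)).filter (fun i => (if i = 0 then G 1 2 else if i = 1 then G 0 2 else
          G 0 1) = true) = if G 0 1 = true then Ico 2 (3 + s) else ∅ := by
        split_ifs with hg
        · rw [filter_eq_self]
          intro i hi
          rw [mem_Ico] at hi
          rw [if_neg (by omega), if_neg (by omega)]
          exact hg
        · rw [filter_eq_empty_iff]
          intro i hi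
          rw [mem_Ico] at hi
          rw [if_neg (by omega), if_neg (by omega)]
          exact hg
      rw [e1]
      have hIco : (Ico 2 (3 + s)).card = s + 1 := by rw [Nat.card_Ico]; omega
      cases h01 : G 0 1 <;> cases h02 : G 0 2 <;> cases h12 : G 1 2 <;>
        simp [card_insert_of_notMem, hIco] <;> omega
    · intro i hi j hj hij
      rw [mem_coe, mem_filter] at hi hj
      by_contra hne
      have h4 : φ j ∈ ((range (3 + s)).erase i).image φ :=
        mem_image_of_mem _ (mem_erase.2 ⟨fun h => hne h.symm, hj.1⟩)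
      have hij' : ((range (3 + s)).erase i).image φ = ((range (3 + s)).erase j).image φ := hij
      rw [hij'] at h4
      obtain ⟨t, ht, he⟩ := mem_image.1 h4
      rw [mem_erase] at ht
      exact ht.1 (hinj ht.2 hj.1 he)

/-- all six numbers of edges occur -/
theorem six {s n N : ℕ} (hn : 1 ≤ n)
    (hN : twr s (2 ^ (2 * (s + 3) ^ 2) * n ^ 4) ≤ N) (c : Finset ℕ → Bool)
    (hc : ∀ H ⊆ range N, H.card = n → ¬ Homogeneous (s + 2) c H) (e : ℕ)
    (he : e = 0 ∨ e = 1 ∨ e = 2 ∨ e = s + 1 ∨ e = s + 2 ∨ e = s + 3) :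
    ∃ B ⊆ range N, B.card = s + 3 ∧ edges (s + 2) c B = e := by
  have hpat : ∀ a b c' : Bool, ∃ B ⊆ range N, B.card = s + 3 ∧
      edges (s + 2) c B = (s + 1) * a.toNat + b.toNat + c'.toNat := by
    intro a b c'
    have h := pattern_poly (s := s) (D := 2)
      (eh_three (fun i j => if i = 0 then (if j = 1 then a else b) else c')) hn hN c hc
    have h1 := edges_pattern h
    simpa using h1
  rcases he with rfl | rfl | rfl | rfl | rfl | rfl
  · simpa using hpat false false false
  · simpa using hpat false true false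
  · simpa using hpat false true true
  · simpa using hpat true false false
  · simpa using hpat true true false
  · simpa using hpat true true true

end Pool.Agent.Run7.h384.PAT
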