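import Pool.Agent.Run7.h384.UNI.Emb

/-!
# Ordered graphs without a pattern on three vertices
-/

set_option autoImplicit false

namespace Pool.Agent.Run7.h384.PAT

open Finset Pool.Agent.Run7.h384.UNI

/-- few backward neighbours of colour `a` -/
theorem back {d : ℕ → ℕ → Bool} {a : Bool} {n : ℕ} : ∀ (m : ℕ) (W : Finset ℕ), W.card ≤ m →
    (∀ y ∈ W, (W.filter (fun x => x < y ∧ d x y = a)).card < n) →
    ∃ H ⊆ W, Mono d (!a) H ∧ W.card ≤ n * H.card := by
  classical
  intro m
  induction m with
  | zero =>
    intro W hW _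
    refine ⟨∅, empty_subset _, fun x hx => by simp at hx, ?_⟩
    omega
  | succ m ih =>
    intro W hW hd
    rcases W.eq_empty_or_nonempty with rfl | hne
    · exact ⟨∅, Subset.refl _, fun x hx => by simp at hx, by simp⟩
    set y := W.max' hne with hy
    have hyW : y ∈ W := max'_mem _ _
    set X := W.filter (fun x => x < y ∧ d x y = a) with hX
    set W' := (W.erase y) \ X with hW'
    have hX1 : X ⊆ W.erase y := by
      intro x hx
      rw [hX, mem_filter] at hx
      exact mem_erase.2 ⟨by omega, hx.1⟩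
    have hcard : W'.card + X.card + 1 = W.card := by
      have h1 : W'.card + X.card = (W.erase y).card := card_sdiff_add_card_eq_card hX1
      have h2 := card_erase_add_one hyW
      omega
    have hXn := hd y hyW
    rw [← hX] at hXn
    have hW'W : W' ⊆ W := sdiff_subset.trans (erase_subset _ _)
    obtain ⟨H, hH, hHm, hHc⟩ := ih W' (by omega) (by
      intro z hz
      refine lt_of_le_of_lt (card_le_card ?_) (hd z (hW'W hz))
      exact filter_subset_filter _ hW'W)
    have hyW' : y ∉ W' := by simp [hW']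
    have hyH : y ∉ H := fun h => hyW' (hH h)
    refine ⟨insert y H, insert_subset hyW (hH.trans hW'W), ?_, ?_⟩
    · have hlt : ∀ x ∈ H, x < y ∧ d x y = !a := by
        intro x hx
        have h1 := hH hx
        rw [hW', mem_sdiff, mem_erase, hX, mem_filter] at h1
        have h2 : x ≤ y := le_max' _ _ h1.1.2
        have h3 : x < y := lt_of_le_of_ne h2 h1.1.1
        refine ⟨h3, ?_⟩
        by_contra hcon
        apply h1.2
        refine ⟨h1.1.2, h3, ?_⟩
        cases hh : d x y <;> cases a <;> simp_all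
      intro x hx z hz hxz
      rw [mem_insert] at hx hz
      rcases hx with rfl | hx
      · rcases hz with rfl | hz
        · exact absurd hxz (lt_irrefl _)
        · exact absurd (hlt z hz).1 (by omega)
      · rcases hz with rfl | hz
        · exact (hlt x hx).2
        · exact hHm x hx z hz hxz
    · rw [card_insert_of_notMem hyH, mul_add, mul_one]
      omega

/-- few forward neighbours of colour `a` -/
theorem fwd {d : ℕ → ℕ → Bool} {a : Bool} {n : ℕ} : ∀ (m : ℕ) (W : Finset ℕ), W.card ≤ m →
    (∀ x ∈ W, (W.filter (fun y => x < y ∧ d x y = a)).card < n) →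
    ∃ H ⊆ W, Mono d (!a) H ∧ W.card ≤ n * H.card := by
  classical
  intro m
  induction m with
  | zero =>
    intro W hW _
    refine ⟨∅, empty_subset _, fun x hx => by simp at hx, ?_⟩
    omega
  | succ m ih =>
    intro W hW hd
    rcases W.eq_empty_or_nonempty with rfl | hne
    · exact ⟨∅, Subset.refl _, fun x hx => by simp at hx, by simp⟩
    set y := W.min' hne with hy
    have hyW : y ∈ W := min'_mem _ _
    set X := W.filter (fun x => y < x ∧ d y x = a) with hX
    set W' := (W.erase y) \ X with hW'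
    have hX1 : X ⊆ W.erase y := by
      intro x hx
      rw [hX, mem_filter] at hx
      exact mem_erase.2 ⟨by omega, hx.1⟩
    have hcard : W'.card + X.card + 1 = W.card := by
      have h1 : W'.card + X.card = (W.erase y).card := card_sdiff_add_card_eq_card hX1
      have h2 := card_erase_add_one hyW
      omega
    have hXn := hd y hyW
    rw [← hX] at hXn
    have hW'W : W' ⊆ W := sdiff_subset.trans (erase_subset _ _)
    obtain ⟨H, hH, hHm, hHc⟩ := ih W' (by omega) (by
      intro z hz
      refine lt_of_le_of_lt (card_le_card ?_) (hd z (hW'W hz))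
      exact filter_subset_filter _ hW'W)
    have hyW' : y ∉ W' := by simp [hW']
    have hyH : y ∉ H := fun h => hyW' (hH h)
    refine ⟨insert y H, insert_subset hyW (hH.trans hW'W), ?_, ?_⟩
    · have hlt : ∀ x ∈ H, y < x ∧ d y x = !a := by
        intro x hx
        have h1 := hH hx
        rw [hW', mem_sdiff, mem_erase, hX, mem_filter] at h1
        have h2 : y ≤ x := min'_le _ _ h1.1.2
        have h3 : y < x := lt_of_le_of_ne h2 (Ne.symm h1.1.1)
        refine ⟨h3, ?_⟩
        by_contra hcon
        apply h1.2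
        refine ⟨h1.1.2, h3, ?_⟩
        cases hh : d y x <;> cases a <;> simp_all
      intro x hx z hz hxz
      rw [mem_insert] at hx hz
      rcases hx with rfl | hx
      · rcases hz with rfl | hz
        · exact absurd hxz (lt_irrefl _)
        · exact (hlt z hz).2
      · rcases hz with rfl | hz
        · exact absurd (hlt x hx).1 (by omega)
        · exact hHm x hx z hz hxz
    · rw [card_insert_of_notMem hyH, mul_add, mul_one]
      omega

/-- a transitive colour: Mirsky's theorem -/
theorem trans_col {d : ℕ → ℕ → Bool} {a : Bool} {n : ℕ} {W : Finset ℕ}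
    (ht : ∀ x ∈ W, ∀ y ∈ W, ∀ z ∈ W, x < y → y < z → d x y = a → d y z = a → d x z = a)
    (hn : n * n ≤ W.card) (hn1 : 1 ≤ n) :
    ∃ b, ∃ H ⊆ W, Mono d b H ∧ n ≤ H.card := by
  classical
  by_contra hcon
  push Not at hcon
  -- height of `y`: the largest size of an `a`-chain in `W` with last element `y`
  set ch : ℕ → Finset (Finset ℕ) := fun y =>
    W.powerset.filter (fun H => Mono d a H ∧ y ∈ H ∧ ∀ x ∈ H, x ≤ y) with hch
  set ht' : ℕ → ℕ := fun y => (ch y).sup card with hht
  have hne : ∀ y ∈ W, (ch y).Nonempty := by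
    intro y hy
    refine ⟨{y}, mem_filter.2 ⟨mem_powerset.2 (singleton_subset_iff.2 hy), ?_, by simp, by simp⟩⟩
    intro x hx z hz hxz
    rw [mem_singleton] at hx hz
    omega
  have hlt : ∀ y ∈ W, ht' y ∈ range n := by
    intro y hy
    obtain ⟨H, hH, e⟩ := exists_mem_eq_sup _ (hne y hy) card
    rw [mem_filter, mem_powerset] at hH
    rw [mem_range]
    show (ch y).sup card < n
    rw [e]
    exact hcon a H hH.1 hH.2.1
  have hstep : ∀ x ∈ W, ∀ y ∈ W, x < y → d x y = a → ht' x < ht' y := by
    intro x hx y hy hxy hd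
    obtain ⟨H, hH, e⟩ := exists_mem_eq_sup _ (hne x hx) card
    rw [mem_filter, mem_powerset] at hH
    have hyH : y ∉ H := fun h => absurd (hH.2.2.2 y h) (by omega)
    have h1 : insert y H ∈ ch y := by
      rw [hch, mem_filter, mem_powerset]
      refine ⟨insert_subset hy hH.1, ?_, mem_insert_self _ _, ?_⟩
      · intro u hu v hv huv
        rw [mem_insert] at hu hv
        rcases hu with rfl | hu
        · rcases hv with rfl | hv
          · exact absurd huv (lt_irrefl _)
          · exact absurd (hH.2.2.2 v hv) (by omega)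
        · rcases hv with rfl | hv
          · rcases (hH.2.2.2 u hu).eq_or_lt with h | h
            · rw [h]; exact hd
            · exact ht u (hH.1 hu) x hx v hy h hxy (hH.2.1 u hu x hH.2.2.1 h) hd
          · exact hH.2.1 u hu v hv huv
      · intro u hu
        rw [mem_insert] at hu
        rcases hu with rfl | hu
        · exact le_rfl
        · exact (hH.2.2.2 u hu).trans hxy.le
    have h2 := le_sup (f := card) h1
    rw [card_insert_of_notMem hyH] at h2
    show (ch x).sup card < (ch y).sup card
    rw [e]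
    omega
  obtain ⟨j, hj, hjc⟩ := exists_max_image (range n) (fun j => (W.filter (fun y => ht' y = j)).card)
    ⟨0, mem_range.2 (by omega)⟩
  have hsum : W.card = ∑ j ∈ range n, (W.filter (fun y => ht' y = j)).card :=
    card_eq_sum_card_fiberwise hlt
  have hle : W.card ≤ n * (W.filter (fun y => ht' y = j)).card := by
    rw [hsum]
    calc _ ≤ ∑ _j ∈ range n, (W.filter (fun y => ht' y = j)).card := sum_le_sum hjc
      _ = _ := by rw [sum_const, card_range, smul_eq_mul]
  have h1 := hcon (!a) (W.filter (fun y => ht' y = j)) (filter_subset _ _) (by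
    intro x hx y hy hxy
    rw [mem_filter] at hx hy
    by_contra h
    have h2 : d x y = a := by
      cases hh : d x y <;> cases a <;> simp_all
    have := hstep x hx.1 y hy.1 hxy h2
    omega)
  have h2 : n * n ≤ n * (W.filter (fun y => ht' y = j)).card := hn.trans hle
  have h3 := Nat.le_of_mul_le_mul_left h2 (by omega)
  omega

/-- The pattern `G` on `k` vertices has the Erdős–Hajnal property with the exponent `1 / D`. -/
def EH (k : ℕ) (G : ℕ → ℕ → Bool) (D : ℕ) : Prop :=
  ∀ (d : ℕ → ℕ → Bool) (W : Finset ℕ) (n : ℕ), 1 ≤ n → n ^ D ≤ W.card → ¬ Copy d W k G →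
    ∃ b, ∃ H ⊆ W, Mono d b H ∧ n ≤ H.card

theorem eh_three (G : ℕ → ℕ → Bool) : EH 3 G 2 := by
  classical
  intro d W n hn hW hG
  rw [sq] at hW
  have hno : ∀ x ∈ W, ∀ y ∈ W, ∀ z ∈ W, x < y → y < z → d x y = G 0 1 → d x z = G 0 2 →
      d y z = G 1 2 → False := by
    intro x hx y hy z hz hxy hyz h1 h2 h3
    apply hG
    refine ⟨fun i => if i = 0 then x else if i = 1 then y else z, ?_, ?_⟩
    · intro i _
      simp only
      split_ifs <;> assumption
    · intro j hj i hi
      have hc : (i = 0 ∧ j = 1) ∨ (i = 0 ∧ j = 2) ∨ (i = 1 ∧ j = 2) := by omega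
      rcases hc with ⟨rfl, rfl⟩ | ⟨rfl, rfl⟩ | ⟨rfl, rfl⟩
      · simpa using ⟨hxy, h1⟩
      · simpa using ⟨hxy.trans hyz, h2⟩
      · simpa using ⟨hyz, h3⟩
  by_cases h1 : G 0 2 = G 1 2
  · -- backward neighbourhoods
    by_cases hdeg : ∀ y ∈ W, (W.filter (fun x => x < y ∧ d x y = G 0 2)).card < n
    · obtain ⟨H, hH, hm, hc⟩ := back W.card W le_rfl hdeg
      exact ⟨_, H, hH, hm, Nat.le_of_mul_le_mul_left (hW.trans hc) (by omega)⟩
    · push Not at hdeg
      obtain ⟨z, hz, hzc⟩ := hdeg
      refine ⟨!(G 0 1), _, filter_subset _ _, ?_, hzc⟩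
      intro x hx y hy hxy
      rw [mem_filter] at hx hy
      by_contra h
      refine hno x hx.1 y hy.1 z hz hxy hy.2.1 ?_ hx.2.2 (h1 ▸ hy.2.2)
      cases hh : d x y <;> cases hg : G 0 1 <;> simp_all
  · by_cases h2 : G 0 1 = G 0 2
    · by_cases hdeg : ∀ x ∈ W, (W.filter (fun y => x < y ∧ d x y = G 0 1)).card < n
      · obtain ⟨H, hH, hm, hc⟩ := fwd W.card W le_rfl hdeg
        exact ⟨_, H, hH, hm, Nat.le_of_mul_le_mul_left (hW.trans hc) (by omega)⟩
      · push Not at hdeg
        obtain ⟨z, hz, hzc⟩ := hdeg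
        refine ⟨!(G 1 2), _, filter_subset _ _, ?_, hzc⟩
        intro x hx y hy hxy
        rw [mem_filter] at hx hy
        by_contra h
        refine hno z hz x hx.1 y hy.1 hx.2.1 hxy hx.2.2 (h2 ▸ hy.2.2) ?_
        cases hh : d x y <;> cases hg : G 1 2 <;> simp_all
    · apply trans_col (a := G 0 1) ?_ hW hn
      intro x hx y hy z hz hxy hyz hd1 hd2
      by_contra h
      refine hno x hx y hy z hz hxy hyz hd1 ?_ ?_
      · cases hh : d x z <;> cases hg : G 0 1 <;> cases hg' : G 0 2 <;> simp_all
      · cases hg : G 0 1 <;> cases hg' : G 0 2 <;> cases hg'' : G 1 2 <;> simp_all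

theorem eh_mono {k : ℕ} {G : ℕ → ℕ → Bool} {D D' : ℕ} (h : EH k G D) (hD : D ≤ D') : EH k G D' :=
  fun d W n hn hW hG => h d W n hn ((Nat.pow_le_pow_right (by omega) hD).trans hW) hG

theorem eh_small {k : ℕ} (hk : k ≤ 3) (G : ℕ → ℕ → Bool) : EH k G 2 := by
  intro d W n hn hW hG
  apply eh_three G d W n hn hW
  rintro ⟨φ, h1, h2⟩
  exact hG ⟨φ, fun i hi => h1 i (by omega), fun j hj i hi => h2 j (by omega) i hi⟩

end Pool.Agent.Run7.h384.PAT
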