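import Pool.Agent.Run7.h384.PAT.Base

/-!
# Substitution (Alon, Pach, Solymosi) for ordered graphs
-/

set_option autoImplicit false

namespace Pool.Agent.Run7.h384.PAT

open Finset Pool.Agent.Run7.h384.UNI

theorem desc_le {N m : ℕ} (h : m ≤ N) : ∀ k : ℕ,
    m.descFactorial k * N ^ k ≤ N.descFactorial k * m ^ k
  | 0 => by simp
  | k + 1 => by
    have ih := desc_le h k
    rw [Nat.descFactorial_succ, Nat.descFactorial_succ, pow_succ, pow_succ]
    have h1 : (m - k) * N ≤ (N - k) * m := by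
      rcases Nat.lt_or_ge m k with h2 | h2
      · rw [Nat.sub_eq_zero_of_le h2.le, zero_mul]
        exact Nat.zero_le _
      · obtain ⟨t, rfl⟩ := Nat.exists_eq_add_of_le h2
        obtain ⟨u, rfl⟩ := Nat.exists_eq_add_of_le h
        have e1 : k + t - k = t := by omega
        have e2 : k + t + u - k = t + u := by omega
        rw [e1, e2]
        nlinarith
    calc (m - k) * m.descFactorial k * (N ^ k * N) = (m.descFactorial k * N ^ k) * ((m - k) * N) := by
          ring
      _ ≤ (N.descFactorial k * m ^ k) * ((N - k) * m) := Nat.mul_le_mul ih h1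
      _ = _ := by ring

theorem choose_le {N m k : ℕ} (h : m ≤ N) : m.choose k * N ^ k ≤ N.choose k * m ^ k := by
  have h1 := desc_le h k
  rw [Nat.descFactorial_eq_factorial_mul_choose, Nat.descFactorial_eq_factorial_mul_choose] at h1
  have h2 : k.factorial * (m.choose k * N ^ k) ≤ k.factorial * (N.choose k * m ^ k) := by
    calc _ = k.factorial * m.choose k * N ^ k := by ring
      _ ≤ _ := h1
      _ = _ := by ring
  exact Nat.le_of_mul_le_mul_left h2 (Nat.factorial_pos k)

theorem supersets (W K : Finset ℕ) (m : ℕ) (hK : K ⊆ W) :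
    ((powersetCard m W).filter (fun M => K ⊆ M)).card ≤ (W.card - K.card).choose (m - K.card) := by
  classical
  rw [← card_sdiff_of_subset hK, ← card_powersetCard]
  apply card_le_card_of_injOn (fun M => M \ K)
  · intro M hM
    rw [mem_coe, mem_filter, mem_powersetCard] at hM
    rw [mem_coe, mem_powersetCard]
    exact ⟨sdiff_subset_sdiff hM.1.1 (Subset.refl _), by rw [card_sdiff_of_subset hM.2, hM.1.2]⟩
  · intro M hM M' hM' h
    rw [mem_coe, mem_filter] at hM hM'
    have h' : M \ K = M' \ K := h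
    rw [← sdiff_union_of_subset hM.2, h', sdiff_union_of_subset hM'.2]

/-- supersaturation -/
theorem supersat (W : Finset ℕ) (m k : ℕ) (𝓚 : Finset (Finset ℕ)) (hm : m ≤ W.card)
    (h𝓚 : ∀ K ∈ 𝓚, K ⊆ W ∧ K.card = k) (h : ∀ M ⊆ W, M.card = m → ∃ K ∈ 𝓚, K ⊆ M) :
    W.card ^ k ≤ 𝓚.card * m ^ k := by
  classical
  set N := W.card with hN
  have hkm : k ≤ m := by
    obtain ⟨M, hM, hMc⟩ := exists_subset_card_eq hm
    obtain ⟨K, hK, hKM⟩ := h M hM hMc
    have := card_le_card hKM
    rw [(h𝓚 K hK).2, hMc] at this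
    exact this
  have h1 : N.choose m ≤ 𝓚.card * (N - k).choose (m - k) := by
    rw [hN, ← card_powersetCard]
    calc (powersetCard m W).card
        ≤ (𝓚.biUnion (fun K => (powersetCard m W).filter (fun M => K ⊆ M))).card := by
          apply card_le_card
          intro M hM
          rw [mem_powersetCard] at hM
          obtain ⟨K, hK, hKM⟩ := h M hM.1 hM.2
          exact mem_biUnion.2 ⟨K, hK, mem_filter.2 ⟨mem_powersetCard.2 hM, hKM⟩⟩
      _ ≤ ∑ K ∈ 𝓚, ((powersetCard m W).filter (fun M => K ⊆ M)).card := card_biUnion_le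
      _ ≤ ∑ _K ∈ 𝓚, (W.card - k).choose (m - k) := by
          apply sum_le_sum
          intro K hK
          have := supersets W K m (h𝓚 K hK).1
          rwa [(h𝓚 K hK).2] at this
      _ = _ := by rw [sum_const, smul_eq_mul]
  have h2 : N.choose m * m.choose k = N.choose k * (N - k).choose (m - k) :=
    Nat.choose_mul hkm
  have h3 : 0 < (N - k).choose (m - k) := Nat.choose_pos (by omega)
  have h4 : N.choose k ≤ 𝓚.card * m.choose k := by
    have : (N - k).choose (m - k) * N.choose k ≤ (N - k).choose (m - k) * (𝓚.card * m.choose k) := by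
      calc _ = N.choose m * m.choose k := by rw [h2]; ring
        _ ≤ (𝓚.card * (N - k).choose (m - k)) * m.choose k := Nat.mul_le_mul_right _ h1
        _ = _ := by ring
    exact Nat.le_of_mul_le_mul_left this h3
  have h5 := choose_le (k := k) hm
  have h6 : 0 < m.choose k := Nat.choose_pos hkm
  have h7 : m.choose k * N ^ k ≤ m.choose k * (𝓚.card * m ^ k) := by
    calc _ ≤ N.choose k * m ^ k := h5
      _ ≤ (𝓚.card * m.choose k) * m ^ k := Nat.mul_le_mul_right _ h4
      _ = _ := by ring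
  exact Nat.le_of_mul_le_mul_left h7 h6

/-- the position in `G₁` of the vertex `i` of the substitution of `G₂` (on `k₂` vertices) for the
vertex `v` of `G₁` -/
def pos (v k₂ i : ℕ) : ℕ := if i < v then i else if i < v + k₂ then v else i + 1 - k₂

/-- The substitution of `G₂` (on `k₂` vertices) for the vertex `v` of `G₁`: the vertices
`v, …, v + k₂ - 1` are a copy of `G₂`, all the others keep their adjacencies. -/
def subst (G₁ G₂ : ℕ → ℕ → Bool) (v k₂ : ℕ) : ℕ → ℕ → Bool := fun i j =>
  if pos v k₂ i = pos v k₂ j then G₂ (i - v) (j - v) else G₁ (pos v k₂ i) (pos v k₂ j)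

theorem erase_emb {K J : Finset ℕ} {k : ℕ} (hK : K.card = k + 1) (v : Fin (k + 1))
    (hJ : J = K.erase (K.orderEmbOfFin hK v)) (hJc : J.card = k) (i : Fin k) :
    J.orderEmbOfFin hJc i = K.orderEmbOfFin hK (v.succAbove i) := by
  have : (fun i : Fin k => K.orderEmbOfFin hK (v.succAbove i)) = J.orderEmbOfFin hJc := by
    apply orderEmbOfFin_unique hJc
    · intro x
      rw [hJ, mem_erase]
      refine ⟨?_, orderEmbOfFin_mem _ _ _⟩
      intro h
      exact Fin.succAbove_ne v x ((K.orderEmbOfFin hK).injective h)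
    · exact (K.orderEmbOfFin hK).strictMono.comp (Fin.strictMono_succAbove v)
  exact (congrFun this i).symm

theorem pos_lt {v k₂ i j k₁ : ℕ} (hv : v < k₁) (hk₂ : 1 ≤ k₂) (hij : i < j)
    (hj : j < k₁ + k₂ - 1) :
    (pos v k₂ i = pos v k₂ j ∧ pos v k₂ i = v ∧ v ≤ i ∧ j < v + k₂) ∨
      (pos v k₂ i < pos v k₂ j ∧ pos v k₂ j < k₁) := by
  unfold pos
  split_ifs <;> omega

theorem eh_subst {k₁ k₂ v : ℕ} {G₁ G₂ : ℕ → ℕ → Bool} {D₁ D₂ : ℕ} (h₁ : EH k₁ G₁ D₁)
    (h₂ : EH k₂ G₂ D₂) (hv : v < k₁) (hk₂ : 1 ≤ k₂) :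
    EH (k₁ + k₂ - 1) (subst G₁ G₂ v k₂) (D₂ + k₁ * D₁) := by
  classical
  intro d W n hn hW hG
  by_contra hcon
  push Not at hcon
  obtain ⟨κ, rfl⟩ : ∃ κ, k₁ = κ + 1 := ⟨k₁ - 1, by omega⟩
  set m := n ^ D₁ with hm
  set N := W.card with hN
  have hmpos : 1 ≤ m := Nat.one_le_pow _ _ hn
  have hmN : m ≤ N := by
    refine le_trans (Nat.pow_le_pow_right (by omega) ?_) hW
    have : D₁ ≤ (κ + 1) * D₁ := Nat.le_mul_of_pos_left _ (by omega)
    omega
  -- copies of `G₁`
  set 𝓚 := W.powerset.filter (fun K => ∃ h : K.card = κ + 1, ∀ j : Fin (κ + 1),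
    ∀ i : Fin (κ + 1), i < j →
    d (K.orderEmbOfFin h i) (K.orderEmbOfFin h j) = G₁ i j) with h𝓚
  have hsat : N ^ (κ + 1) ≤ 𝓚.card * m ^ (κ + 1) := by
    apply supersat W m (κ + 1) 𝓚 hmN
    · intro K hK
      rw [h𝓚, mem_filter, mem_powerset] at hK
      obtain ⟨h1, h2, -⟩ := hK
      exact ⟨h1, h2⟩
    · intro M hM hMc
      have hcopy : Copy d M (κ + 1) G₁ := by
        by_contra hno
        obtain ⟨b, H, hH, hHm, hHc⟩ := h₁ d M n hn hMc.ge hno
        have := hcon b H (hH.trans hM) hHm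
        omega
      obtain ⟨φ, h1, h2⟩ := hcopy
      have hinj : ∀ i < κ + 1, ∀ j < κ + 1, i < j → φ i < φ j :=
        fun i _ j hj hij => (h2 j hj i hij).1
      set K := (range (κ + 1)).image φ with hKdef
      have hKc : K.card = κ + 1 := by
        rw [hKdef, card_image_of_injOn, card_range]
        intro i hi j hj hij
        rw [mem_coe, mem_range] at hi hj
        rcases lt_trichotomy i j with h | h | h
        · exact absurd hij (hinj i hi j hj h).ne
        · exact h
        · exact absurd hij (hinj j hj i hi h).ne'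
      have hemb : ∀ i : Fin (κ + 1), K.orderEmbOfFin hKc i = φ i := by
        intro i
        have : (fun i : Fin (κ + 1) => φ i) = K.orderEmbOfFin hKc := by
          apply orderEmbOfFin_unique hKc
          · intro x
            exact mem_image_of_mem _ (mem_range.2 x.2)
          · intro x y hxy
            exact hinj x x.2 y y.2 hxy
        exact (congrFun this i).symm
      refine ⟨K, ?_, ?_⟩
      · rw [h𝓚, mem_filter, mem_powerset]
        refine ⟨?_, hKc, ?_⟩
        · intro x hx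
          obtain ⟨i, hi, rfl⟩ := mem_image.1 hx
          exact hM (h1 i (mem_range.1 hi))
        · intro j i hij
          rw [hemb, hemb]
          exact (h2 j j.2 i hij).2
      · intro x hx
        obtain ⟨i, hi, rfl⟩ := mem_image.1 hx
        exact h1 i (mem_range.1 hi)
  -- remove the vertex number `v`
  set pt : Finset ℕ → ℕ := fun K => if h : K.card = κ + 1 then K.orderEmbOfFin h ⟨v, hv⟩ else 0
    with hpt
  have hptK : ∀ K (h : K.card = κ + 1), pt K = K.orderEmbOfFin h ⟨v, hv⟩ := fun K h => dif_pos h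
  have hK𝓚 : ∀ K ∈ 𝓚, K ⊆ W ∧ ∃ h : K.card = κ + 1, ∀ j : Fin (κ + 1), ∀ i : Fin (κ + 1), i < j →
      d (K.orderEmbOfFin h i) (K.orderEmbOfFin h j) = G₁ i j := by
    intro K hK
    rw [h𝓚, mem_filter, mem_powerset] at hK
    exact hK
  have hptmem : ∀ K ∈ 𝓚, pt K ∈ K := by
    intro K hK
    obtain ⟨-, h, -⟩ := hK𝓚 K hK
    rw [hptK K h]
    exact orderEmbOfFin_mem _ _ _
  have hmap : ∀ K ∈ 𝓚, K.erase (pt K) ∈ powersetCard κ W := by
    intro K hK
    rw [mem_powersetCard]
    obtain ⟨h0, h, -⟩ := hK𝓚 K hK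
    refine ⟨(erase_subset _ _).trans h0, ?_⟩
    rw [card_erase_of_mem (hptmem K hK), h]
    rfl
  have hne : (powersetCard κ W).Nonempty := by
    rw [powersetCard_nonempty]
    by_contra hlt
    push Not at hlt
    have h0 : 𝓚 = ∅ := by
      rw [eq_empty_iff_forall_notMem]
      intro K hK
      obtain ⟨h1, h2, -⟩ := hK𝓚 K hK
      have := card_le_card h1
      omega
    rw [h0, card_empty, zero_mul] at hsat
    have : 0 < N ^ (κ + 1) := pow_pos (by omega) _
    omega
  obtain ⟨J, hJ, hJmax⟩ := exists_max_image (powersetCard κ W)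
    (fun J => (𝓚.filter (fun K => K.erase (pt K) = J)).card) hne
  set F := 𝓚.filter (fun K => K.erase (pt K) = J) with hF
  have hFle : 𝓚.card ≤ N ^ κ * F.card := by
    calc 𝓚.card = ∑ J ∈ powersetCard κ W, (𝓚.filter (fun K => K.erase (pt K) = J)).card :=
          card_eq_sum_card_fiberwise hmap
      _ ≤ ∑ _J ∈ powersetCard κ W, F.card := sum_le_sum hJmax
      _ = (N.choose κ) * F.card := by rw [sum_const, smul_eq_mul, card_powersetCard]
      _ ≤ N ^ κ * F.card := Nat.mul_le_mul_right _ (Nat.choose_le_pow N κ)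
  have hNF : N ≤ F.card * m ^ (κ + 1) := by
    have h1 : N ^ κ * N ≤ N ^ κ * (F.card * m ^ (κ + 1)) := by
      calc N ^ κ * N = N ^ (κ + 1) := by ring
        _ ≤ 𝓚.card * m ^ (κ + 1) := hsat
        _ ≤ (N ^ κ * F.card) * m ^ (κ + 1) := Nat.mul_le_mul_right _ hFle
        _ = _ := by ring
    exact Nat.le_of_mul_le_mul_left h1 (pow_pos (by omega) _)
  set X := F.image pt with hX
  have hXF : X.card = F.card := by
    rw [hX, card_image_of_injOn]
    intro K hK K' hK' h
    rw [mem_coe, hF, mem_filter] at hK hK'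
    rw [← insert_erase (hptmem K hK.1), ← insert_erase (hptmem K' hK'.1), hK.2, hK'.2]
    rw [show pt K = pt K' from h]
  have hXW : X ⊆ W := by
    intro x hx
    obtain ⟨K, hK, rfl⟩ := mem_image.1 hx
    rw [hF, mem_filter] at hK
    exact (hK𝓚 K hK.1).1 (hptmem K hK.1)
  have hFne : F.Nonempty := by
    rw [← card_pos]
    by_contra h0
    have h0' : F.card = 0 := by omega
    rw [h0', zero_mul] at hNF
    omega
  obtain ⟨K₀, hK₀⟩ := hFne
  have hK₀' := hK₀
  rw [hF, mem_filter] at hK₀'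
  obtain ⟨hK₀W, hK₀c, hK₀e⟩ := hK𝓚 K₀ hK₀'.1
  set e₀ : ℕ → ℕ := fun i => if h : i < κ + 1 then K₀.orderEmbOfFin hK₀c ⟨i, h⟩ else 0 with he₀
  have he₀' : ∀ i (h : i < κ + 1), e₀ i = K₀.orderEmbOfFin hK₀c ⟨i, h⟩ := fun i h => dif_pos h
  have hJc : J.card = κ := (mem_powersetCard.1 hJ).2
  -- all the copies in `F` agree outside of `v`
  have hagree : ∀ K ∈ F, ∃ h : K.card = κ + 1, ∀ i : Fin (κ + 1), i ≠ ⟨v, hv⟩ →
      K.orderEmbOfFin h i = e₀ i := by
    intro K hK
    rw [hF, mem_filter] at hK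
    obtain ⟨-, h, -⟩ := hK𝓚 K hK.1
    refine ⟨h, fun i hi => ?_⟩
    obtain ⟨j, rfl⟩ := Fin.exists_succAbove_eq hi
    have h1 := erase_emb h ⟨v, hv⟩ (J := J) (by rw [← hptK K h]; exact hK.2.symm) hJc j
    have h2 := erase_emb hK₀c ⟨v, hv⟩ (J := J) (by rw [← hptK K₀ hK₀c]; exact hK₀'.2.symm) hJc j
    rw [← h1, h2, he₀' _ (Fin.is_lt _)]
  have hXprop : ∀ x ∈ X, (∀ i < v, e₀ i < x ∧ d (e₀ i) x = G₁ i v) ∧
      (∀ i < κ + 1, v < i → x < e₀ i ∧ d x (e₀ i) = G₁ v i) := by
    intro x hx
    obtain ⟨K, hK, rfl⟩ := mem_image.1 hx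
    obtain ⟨h, hag⟩ := hagree K hK
    have hK' := hK
    rw [hF, mem_filter] at hK'
    obtain ⟨-, h', hcol⟩ := hK𝓚 K hK'.1
    rw [hptK K h]
    constructor
    · intro i hi
      have hik : i < κ + 1 := by omega
      have e1 := hag ⟨i, hik⟩ (by intro h; rw [Fin.mk.injEq] at h; omega)
      rw [← e1]
      refine ⟨(K.orderEmbOfFin h).strictMono (by rw [Fin.mk_lt_mk]; exact hi), ?_⟩
      exact hcol ⟨v, hv⟩ ⟨i, hik⟩ (by rw [Fin.mk_lt_mk]; exact hi)
    · intro i hik hi
      have e1 := hag ⟨i, hik⟩ (by intro h; rw [Fin.mk.injEq] at h; omega)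
      rw [← e1]
      refine ⟨(K.orderEmbOfFin h).strictMono (by rw [Fin.mk_lt_mk]; exact hi), ?_⟩
      exact hcol ⟨i, hik⟩ ⟨v, hv⟩ (by rw [Fin.mk_lt_mk]; exact hi)
  -- no copy of `G₂` in `X`
  have hno : ¬ Copy d X k₂ G₂ := by
    rintro ⟨ψ, hψ1, hψ2⟩
    apply hG
    refine ⟨fun i => if pos v k₂ i = v then ψ (i - v) else e₀ (pos v k₂ i), ?_, ?_⟩
    · intro i hi
      simp only
      split_ifs with h
      · apply hXW
        apply hψ1
        unfold pos at h
        split_ifs at h <;> omega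
      · have h2 : pos v k₂ i < κ + 1 := by
          unfold pos
          split_ifs <;> omega
        rw [he₀' _ h2]
        exact hK₀W (orderEmbOfFin_mem _ _ _)
    · intro j hj i hij
      rcases pos_lt (k₁ := κ + 1) hv hk₂ hij hj with ⟨h1, h2, h3, h4⟩ | ⟨h1, h2⟩
      · have h5 : pos v k₂ j = v := by rw [← h1, h2]
        simp only [subst, h2, h5, if_true]
        exact hψ2 (j - v) (by omega) (i - v) (by omega)
      · have hne' : pos v k₂ i ≠ pos v k₂ j := h1.ne
        simp only [subst, hne', if_false]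
        have hin : ∀ t, t < κ + 1 + k₂ - 1 → pos v k₂ t = v → ψ (t - v) ∈ X := by
          intro t ht h
          apply hψ1
          unfold pos at h
          split_ifs at h <;> omega
        by_cases hi : pos v k₂ i = v
        · have hj' : pos v k₂ j ≠ v := by omega
          simp only [hi, hj', if_true, if_false]
          exact (hXprop _ (hin i (by omega) hi)).2 _ h2 (by omega)
        · by_cases hj' : pos v k₂ j = v
          · simp only [hi, hj', if_true, if_false]
            exact (hXprop _ (hin j hj hj')).1 _ (by omega)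
          · simp only [hi, hj', if_false]
            have h6 : pos v k₂ i < κ + 1 := by omega
            rw [he₀' _ h6, he₀' _ h2]
            exact ⟨(K₀.orderEmbOfFin hK₀c).strictMono (by rw [Fin.mk_lt_mk]; exact h1),
              hK₀e ⟨_, h2⟩ ⟨_, h6⟩ (by rw [Fin.mk_lt_mk]; exact h1)⟩
  have hXlt : X.card < n ^ D₂ := by
    by_contra h
    push Not at h
    obtain ⟨b, H, hH, hHm, hHc⟩ := h₂ d X n hn h hno
    have := hcon b H (hH.trans hXW) hHm
    omega
  have hfin : N < n ^ (D₂ + (κ + 1) * D₁) := by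
    calc N ≤ F.card * m ^ (κ + 1) := hNF
      _ < n ^ D₂ * m ^ (κ + 1) := by
        rw [← hXF]
        exact Nat.mul_lt_mul_of_pos_right hXlt (pow_pos (by omega) _)
      _ = n ^ (D₂ + (κ + 1) * D₁) := by
        rw [hm, ← pow_mul, ← pow_add, mul_comm D₁]
  omega

end Pool.Agent.Run7.h384.PAT
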